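import Mathlib

/-!
# Class functions, induction and Galois conjugates: definitions
-/

open scoped Classical

namespace StarkRange

/-- The `ℚ`-span in `ℂ` of the complex numbers `z` with `z ^ n = 1` for some `n ∈ Z`. -/
noncomputable def rootSpan (Z : Set ℕ) : Submodule ℚ ℂ :=
  Submodule.span ℚ {z : ℂ | ∃ n ∈ Z, z ^ n = 1}

section

variable {G : Type} [Group G] [Fintype G]

/-- The function on `G` induced from the function `f` on the subgroup `H`. -/
noncomputable def ind (H : Subgroup G) (f : H → ℂ) (g : G) : ℂ :=
  (∑ x : G, if h : x⁻¹ * g * x ∈ H then f ⟨x⁻¹ * g * x, h⟩ else 0) / (Nat.card H : ℂ)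

/-- Every character of degree at most `d` of the subgroup `H` of `G` has the same scalar product
with (the restriction to `H` of) `χ` and with each of its Galois conjugates `g ↦ χ (g ^ u)`, `u`
prime to the order of `G`. -/
def Neutral (χ : G → ℂ) (H : Subgroup G) (d : ℕ) : Prop :=
  ∀ (W : Type) [AddCommGroup W] [Module ℂ W] [Module.Finite ℂ W] (θ : Representation ℂ H W),
    Module.finrank ℂ W ≤ d → ∀ u : ℕ, u.Coprime (Nat.card G) →
      ∑ h : H, θ.character h * star (χ ((h : G) ^ u)) = ∑ h : H, θ.character h * star (χ h)

end

section

variable (G : Type) [Group G] [Fintype G]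

/-- The group generated by the characters of `G` induced from the linear characters `ψ` of
subgroups of `G` such that `ψ ^ n = 1` for some `n ∈ Z`. -/
noncomputable def inducedOrders (Z : Set ℕ) : AddSubgroup (G → ℂ) :=
  AddSubgroup.closure {f | ∃ (H : Subgroup G) (ψ : H →* ℂˣ), (∃ n ∈ Z, ψ ^ n = 1) ∧
    f = ind H fun h => (ψ h : ℂ)}

/-- The group generated by the characters of `G` induced from the characters of subgroups of `G`
all of whose values are in `rootSpan Z`. -/
noncomputable def inducedValues (Z : Set ℕ) : AddSubgroup (G → ℂ) :=
  AddSubgroup.closure {f | ∃ (H : Subgroup G) (V : Type) (_ : AddCommGroup V) (_ : Module ℂ V)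
    (_ : Module.Finite ℂ V) (θ : Representation ℂ H V),
      (∀ h, θ.character h ∈ rootSpan Z) ∧ f = ind H θ.character}

end

section

variable {G G' : Type} [Group G] [Fintype G] [Group G'] [Fintype G']

/-- For a homomorphism `π : G' → G`: the group generated by the characters of `G'` induced from
the characters `θ` of the subgroups `H` of `G'` such that no character of `π(H)` of degree at most
`θ(1)` distinguishes `χ` from its Galois conjugates. -/
noncomputable def inducedNeutral (π : G' →* G) (χ : G → ℂ) : AddSubgroup (G' → ℂ) :=
  AddSubgroup.closure {f | ∃ (H : Subgroup G') (V : Type) (_ : AddCommGroup V) (_ : Module ℂ V)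
    (_ : Module.Finite ℂ V) (θ : Representation ℂ H V),
      Neutral χ (H.map π) (Module.finrank ℂ V) ∧ f = ind H θ.character}

/-- The function `c` on `G'` is orthogonal to `χ ∘ π` and to its Galois conjugates
`x ↦ χ ((π x) ^ u)`. -/
def OrthogonalConj (π : G' →* G) (χ : G → ℂ) (c : G' → ℂ) : Prop :=
  ∀ u : ℕ, u.Coprime (Nat.card G') → ∑ x : G', c x * star (χ (π x ^ u)) = 0

/-- Some nonzero multiple of the function `χ ∘ π` on `G'` is `a + b + c`, where `a` is in the group
generated by the characters induced from characters of subgroups with values in `rootSpan Z`; `b`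
is in the group generated by the characters induced from the characters `θ` of the subgroups `H` of
`G'` such that no character of `π(H)` of degree at most `θ(1)` distinguishes `χ` from its Galois
conjugates; and `c` is a function which is orthogonal to all Galois conjugates of `χ ∘ π`. -/
def ReducesVia (π : G' →* G) (Z : Set ℕ) (χ : G → ℂ) : Prop :=
  ∃ (m : ℤ) (a b c : G' → ℂ), m ≠ 0 ∧ a ∈ inducedValues G' Z ∧ b ∈ inducedNeutral π χ ∧
    OrthogonalConj π χ c ∧ (fun x => (m : ℂ) * χ (π x)) = a + b + c

end

end StarkRange
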