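import Mathlib
import Pool.Agent.Stark.CMB

/-!
# The part of a representation which factors through a quotient
-/

open scoped Classical
open StarkC

namespace StarkRange

section

variable {H G₀ : Type} [Group H] [Fintype H] [Group G₀] [Fintype G₀] {V : Type}
  [AddCommGroup V] [Module ℂ V] [Module.Finite ℂ V]

/-- The vectors fixed by the kernel of `r`. -/
def fixK (r : H →* G₀) (θ : Representation ℂ H V) : Submodule ℂ V where
  carrier := {v | ∀ k ∈ r.ker, θ k v = v}
  add_mem' := by
    intro a b ha hb k hk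
    rw [map_add, ha k hk, hb k hk]
  zero_mem' := fun k _ => map_zero _
  smul_mem' := by
    intro c a ha k hk
    rw [map_smul, ha k hk]

omit [Fintype H] [Fintype G₀] [Module.Finite ℂ V] in
theorem fixK_stable (r : H →* G₀) (θ : Representation ℂ H V) (h : H) :
    ∀ v ∈ fixK r θ, θ h v ∈ fixK r θ := by
  intro v hv k hk
  have h1 : h⁻¹ * k * h ∈ r.ker := by
    rw [MonoidHom.mem_ker, map_mul, map_mul, MonoidHom.mem_ker.1 hk, mul_one, ← map_mul,
      inv_mul_cancel, map_one]
  have h2 := hv _ h1
  have h3 : θ k (θ h v) = θ h (θ (h⁻¹ * k * h) v) := by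
    rw [← Module.End.mul_apply, ← Module.End.mul_apply, ← map_mul, ← map_mul]
    congr 2
    group
  rw [h3, h2]

/-- The representation on the fixed vectors. -/
def repK (r : H →* G₀) (θ : Representation ℂ H V) : Representation ℂ H (fixK r θ) where
  toFun h := (θ h).restrict (fixK_stable r θ h)
  map_one' := by
    ext v
    simp
  map_mul' a b := by
    ext v
    simp

theorem exists_quot (r : H →* G₀) (hr : Function.Surjective r) (θ : Representation ℂ H V) :
    ∃ θ₀ : Representation ℂ G₀ (fixK r θ), ∀ F : G₀ → ℂ,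
      ∑ h : H, θ.character h * F (r h) =
        (Nat.card r.ker : ℂ) * ∑ g : G₀, θ₀.character g * F g := by
  have hker : r.ker ≤ (repK r θ).asGroupHom.ker := by
    intro k hk
    rw [MonoidHom.mem_ker]
    apply Units.ext
    rw [Representation.asGroupHom_apply, Units.val_one]
    ext v
    have := v.2 k hk
    exact this
  let θ₁ : G₀ →* (Module.End ℂ (fixK r θ))ˣ :=
    MonoidHom.liftOfSurjective r hr ⟨(repK r θ).asGroupHom, hker⟩
  have hθ₁ : ∀ h, θ₁ (r h) = (repK r θ).asGroupHom h :=
    fun h => MonoidHom.liftOfRightInverse_comp_apply _ _ _ ⟨(repK r θ).asGroupHom, hker⟩ h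
  let θ₀ : Representation ℂ G₀ (fixK r θ) := (Units.coeHom _).comp θ₁
  have hθ₀ : ∀ h, θ₀ (r h) = repK r θ h := by
    intro h
    show ((θ₁ (r h) : (Module.End ℂ (fixK r θ))ˣ) : Module.End ℂ (fixK r θ)) = _
    rw [hθ₁, Representation.asGroupHom_apply]
  refine ⟨θ₀, fun F => ?_⟩
  have hk0 : (Nat.card r.ker : ℂ) ≠ 0 := by exact_mod_cast Nat.card_pos.ne'
  -- the trace
  have htr : ∀ h : H, ∑ k : r.ker, θ.character (h * k) =
      (Nat.card r.ker : ℂ) * θ₀.character (r h) := by
    intro h
    let q : Module.End ℂ V := ∑ k : r.ker, θ k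
    have hq : ∀ v, q v ∈ fixK r θ := by
      intro v k hk
      show θ k ((∑ k : r.ker, θ k) v) = (∑ k : r.ker, θ k) v
      rw [LinearMap.sum_apply, map_sum]
      have h2 := Equiv.sum_comp (Equiv.mulLeft (⟨k, hk⟩ : r.ker)) (fun k' : r.ker => θ k' v)
      rw [← h2]
      refine Finset.sum_congr rfl fun k' _ => ?_
      show θ k (θ k' v) = θ ((⟨k, hk⟩ * k' : r.ker) : H) v
      rw [Subgroup.coe_mul, map_mul]
      rfl
    have hq2 : ∀ v ∈ fixK r θ, q v = (Nat.card r.ker : ℂ) • v := by
      intro v hv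
      show (∑ k : r.ker, θ k) v = _
      rw [LinearMap.sum_apply, Finset.sum_congr rfl fun k _ => hv k.1 k.2, Finset.sum_const,
        Finset.card_univ, Nat.card_eq_fintype_card, ← Nat.cast_smul_eq_nsmul ℂ]
    have e1 : ∑ k : r.ker, θ.character (h * k) = LinearMap.trace ℂ V (θ h * q) := by
      show _ = LinearMap.trace ℂ V (θ h * ∑ k : r.ker, θ k)
      rw [Finset.mul_sum, map_sum]
      refine Finset.sum_congr rfl fun k _ => ?_
      show LinearMap.trace ℂ V (θ (h * k)) = _
      rw [map_mul]
    have hmem : ∀ v, (θ h * q) v ∈ fixK r θ := fun v => fixK_stable r θ h _ (hq v)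
    rw [e1, ← LinearMap.trace_restrict_eq_of_forall_mem (fixK r θ) (θ h * q) hmem]
    show _ = (Nat.card r.ker : ℂ) * LinearMap.trace ℂ (fixK r θ) (θ₀ (r h))
    rw [hθ₀]
    have e9 : (θ h * q).restrict (fun x (_ : x ∈ fixK r θ) => hmem x) =
        (Nat.card r.ker : ℂ) • repK r θ h := by
      ext v
      show θ h (q v) = (Nat.card r.ker : ℂ) • θ h v
      rw [hq2 v.1 v.2, map_smul]
    exact (congrArg (LinearMap.trace ℂ (fixK r θ)) e9).trans (by rw [map_smul, smul_eq_mul])
  have e2 : (Nat.card r.ker : ℂ) * ∑ h : H, θ.character h * F (r h) =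
      ∑ h : H, (∑ k : r.ker, θ.character (h * k)) * F (r h) := by
    have e3 : ∀ k : r.ker, ∑ h : H, θ.character (h * k) * F (r h) =
        ∑ h : H, θ.character h * F (r h) := by
      intro k
      have h2 := Equiv.sum_comp (Equiv.mulRight (k : H)) (fun h : H => θ.character h * F (r h))
      rw [← h2]
      refine Finset.sum_congr rfl fun h _ => ?_
      show _ = θ.character (h * k) * F (r (h * k))
      rw [map_mul, MonoidHom.mem_ker.1 k.2, mul_one]
    simp only [Finset.sum_mul]
    rw [Finset.sum_comm, Finset.sum_congr rfl fun k _ => e3 k, Finset.sum_const,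
      Finset.card_univ, nsmul_eq_mul, Nat.card_eq_fintype_card]
  have e4 : ∑ h : H, (∑ k : r.ker, θ.character (h * k)) * F (r h) =
      (Nat.card r.ker : ℂ) * ∑ h : H, θ₀.character (r h) * F (r h) := by
    rw [Finset.mul_sum]
    refine Finset.sum_congr rfl fun h _ => ?_
    rw [htr h, mul_assoc]
  have e5 := mul_left_cancel₀ hk0 (e2.trans e4)
  rw [e5]
  exact CMB.sum_comp_surj r hr (fun g => θ₀.character g * F g)

end

end StarkRange
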