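import Pool.Agent.Lib_helper3.SR.Ops
import Pool.Agent.Lib_helper3.SR.Quot

/-!
# Functions which have the same scalar product with all Galois conjugates of a character
-/

open scoped Classical
open StarkC

namespace StarkRange

section

variable {G G' : Type} [Group G] [Fintype G] [Group G'] [Fintype G']

/-- `f` has the scalar product `β` with all conjugates. -/
def Flat (π : G' →* G) (χ : G → ℂ) (β : ℂ) (f : G' → ℂ) : Prop :=
  ∀ u : ℕ, u.Coprime (Nat.card G') → ∑ x : G', f x * star (χ (π x ^ u)) = β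

omit [Fintype G] in
theorem exists_inv {u : ℕ} (hu : u.Coprime (Nat.card G')) :
    ∃ v : ℕ, v.Coprime (Nat.card G') ∧ ∀ x : G', (x ^ u) ^ v = x := by
  refine ⟨u ^ (Nat.totient (Nat.card G') - 1), hu.pow_left _, fun x => ?_⟩
  have h1 : u * u ^ (Nat.totient (Nat.card G') - 1) ≡ 1 [MOD Nat.card G'] := by
    rw [← pow_succ', Nat.sub_add_cancel (Nat.totient_pos.2 Nat.card_pos)]
    exact Nat.ModEq.pow_totient hu
  rw [← pow_mul]
  have h2 := (pow_eq_pow_iff_modEq (x := x)).2 (h1.of_dvd (orderOf_dvd_natCard x))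
  rw [h2, pow_one]

theorem sum_pow {u v : ℕ} (huv : ∀ x : G', (x ^ u) ^ v = x) (F : G' → ℂ) :
    ∑ x : G', F (x ^ u) = ∑ x : G', F x := by
  have hinj : Function.Injective (fun x : G' => x ^ u) := by
    intro x y hxy
    have h : x ^ u = y ^ u := hxy
    rw [← huv x, h, huv]
  exact (Finite.injective_iff_bijective.1 hinj).sum_comp F

theorem flat_sub {π : G' →* G} {χ : G → ℂ} {β β' : ℂ} {f f' : G' → ℂ} (h : Flat π χ β f)
    (h' : Flat π χ β' f') : Flat π χ (β - β') (f - f') := by
  intro u hu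
  simp only [Pi.sub_apply, sub_mul, Finset.sum_sub_distrib, h u hu, h' u hu]

theorem flat_add {π : G' →* G} {χ : G → ℂ} {β β' : ℂ} {f f' : G' → ℂ} (h : Flat π χ β f)
    (h' : Flat π χ β' f') : Flat π χ (β + β') (f + f') := by
  intro u hu
  simp only [Pi.add_apply, add_mul, Finset.sum_add_distrib, h u hu, h' u hu]

theorem flat_neg {π : G' →* G} {χ : G → ℂ} {β : ℂ} {f : G' → ℂ} (h : Flat π χ β f) :
    Flat π χ (-β) (-f) := by
  intro u hu
  simp only [Pi.neg_apply, neg_mul, Finset.sum_neg_distrib, h u hu]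

theorem flat_zero {π : G' →* G} {χ : G → ℂ} : Flat π χ 0 (0 : G' → ℂ) := by
  intro u _
  simp

theorem av_flat {π : G' →* G} {χ : G → ℂ} {β : ℂ} {f : G' → ℂ} (h : Flat π χ β f) (n : ℕ) :
    Flat π χ β (av n f) := by
  intro w hw
  have hM : 0 < Nat.card G' := Nat.card_pos
  have e : ∀ j ∈ JJ n (Nat.card G'),
      ∑ x : G', f (x ^ (1 + n * j)) * star (χ (π x ^ w)) = β := by
    intro j hj
    obtain ⟨v, hv, huv⟩ := exists_inv (JJ_coprime hj)
    have e1 : ∀ x : G', f (x ^ (1 + n * j)) * star (χ (π x ^ w)) =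
        (fun y => f y * star (χ (π y ^ (v * w)))) (x ^ (1 + n * j)) := by
      intro x
      show _ = f (x ^ (1 + n * j)) * star (χ (π (x ^ (1 + n * j)) ^ (v * w)))
      rw [pow_mul, ← map_pow π (x ^ (1 + n * j)) v, huv]
    exact (Finset.sum_congr rfl fun x _ => e1 x).trans ((sum_pow huv
      (fun y => f y * star (χ (π y ^ (v * w))))).trans (h _ (hv.mul_left hw)))
  have e2 : ∀ x : G', av n f x * star (χ (π x ^ w)) =
      (∑ j ∈ JJ n (Nat.card G'), f (x ^ (1 + n * j)) * star (χ (π x ^ w))) /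
        ((JJ n (Nat.card G')).card : ℂ) := by
    intro x
    rw [av_apply, ← Finset.sum_mul]
    ring
  rw [Finset.sum_congr rfl fun x _ => e2 x, ← Finset.sum_div, Finset.sum_comm,
    Finset.sum_congr rfl e, Finset.sum_const, nsmul_eq_mul, mul_div_assoc,
    mul_div_cancel₀ _ (JJ_card hM)]

theorem EE_flat_zero {π : G' →* G} {χ : G → ℂ} (l : List ℕ) : ∀ {f : G' → ℂ}, Flat π χ 0 f →
    Flat π χ 0 (EE l f) := by
  induction l with
  | nil => exact fun h => h
  | cons n l ih =>
    intro f h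
    rw [EE_cons]
    refine ih ?_
    have := flat_sub h (av_flat h n)
    rwa [sub_zero] at this

theorem EE_flat {π : G' →* G} {χ : G → ℂ} {β : ℂ} {l : List ℕ} (hl : l ≠ []) {f : G' → ℂ}
    (h : Flat π χ β f) : Flat π χ 0 (EE l f) := by
  cases l with
  | nil => exact absurd rfl hl
  | cons n l =>
    rw [EE_cons]
    refine EE_flat_zero l ?_
    have := flat_sub h (av_flat h n)
    rwa [sub_self] at this

/-! ### The conjugates of `f` -/

/-- The span of the conjugates. -/
noncomputable def conjSpan (f : G' → ℂ) : Submodule ℚ (G' → ℂ) :=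
  Submodule.span ℚ {g | ∃ u : ℕ, u.Coprime (Nat.card G') ∧ g = fun x => f (x ^ u)}

theorem av_conjSpan (n : ℕ) {f g : G' → ℂ} (hg : g ∈ conjSpan f) : av n g ∈ conjSpan f := by
  unfold conjSpan at hg
  induction hg using Submodule.span_induction with
  | mem g hg =>
    obtain ⟨u, hu, rfl⟩ := hg
    have e : av n (fun x : G' => f (x ^ u)) = ∑ j ∈ JJ n (Nat.card G'),
        (((JJ n (Nat.card G')).card : ℚ)⁻¹) • fun x : G' => f (x ^ ((1 + n * j) * u)) := by
      funext x
      rw [av_apply, Finset.sum_apply, Finset.sum_div]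
      refine Finset.sum_congr rfl fun j _ => ?_
      rw [Pi.smul_apply, Rat.smul_def, Rat.cast_inv, Rat.cast_natCast, div_eq_inv_mul, pow_mul]
    rw [e]
    refine Submodule.sum_mem _ fun j hj => Submodule.smul_mem _ _ (Submodule.subset_span
      ⟨_, (JJ_coprime hj).mul_left hu, rfl⟩)
  | zero =>
    rw [map_zero]
    exact Submodule.zero_mem _
  | add x y _ _ hx hy =>
    rw [map_add]
    exact Submodule.add_mem _ hx hy
  | smul q x _ hx =>
    rw [map_smul]
    exact Submodule.smul_mem _ _ hx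

theorem EE_conjSpan (l : List ℕ) : ∀ {f g : G' → ℂ}, g ∈ conjSpan f → EE l g ∈ conjSpan f := by
  induction l with
  | nil => exact fun h => h
  | cons n l ih =>
    intro f g hg
    rw [EE_cons]
    exact ih (Submodule.sub_mem _ hg (av_conjSpan n hg))

theorem self_conjSpan (f : G' → ℂ) : f ∈ conjSpan f :=
  Submodule.subset_span ⟨1, Nat.coprime_one_left _, by funext x; rw [pow_one]⟩

/-- A combination of the conjugates of `χ ∘ π` which is orthogonal to all conjugates is `0`. -/
theorem eq_zero_of_flat {π : G' →* G} {χ : G → ℂ} {D : G' → ℂ}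
    (hD : D ∈ conjSpan fun x => χ (π x)) (h : Flat π χ 0 D) : D = 0 := by
  have h1 : ∀ g ∈ conjSpan (fun x => χ (π x)), ∑ x : G', D x * star (g x) = 0 := by
    intro g hg
    unfold conjSpan at hg
    induction hg using Submodule.span_induction with
    | mem g hg =>
      obtain ⟨u, hu, rfl⟩ := hg
      have := h u hu
      simpa only [map_pow] using this
    | zero => simp
    | add x y _ _ hx hy =>
      simp only [Pi.add_apply, star_add, mul_add, Finset.sum_add_distrib, hx, hy, add_zero]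
    | smul q x _ hx =>
      have e : ∀ z : G', D z * star ((q • x) z) = (q : ℂ) * (D z * star (x z)) := by
        intro z
        rw [Pi.smul_apply, Rat.smul_def, star_mul']
        have hq : star ((q : ℚ) : ℂ) = (q : ℂ) := by
          show (starRingEnd ℂ) ((q : ℚ) : ℂ) = (q : ℂ)
          exact map_ratCast (starRingEnd ℂ) q
        rw [hq]
        ring
      rw [Finset.sum_congr rfl fun z _ => e z, ← Finset.mul_sum, hx, mul_zero]
  have h2 := h1 D hD
  have h3 : ∑ x : G', Complex.normSq (D x) = 0 := by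
    have e : ∀ x : G', D x * star (D x) = ((Complex.normSq (D x) : ℝ) : ℂ) :=
      fun x => Complex.mul_conj (D x)
    rw [Finset.sum_congr rfl fun x _ => e x] at h2
    exact_mod_cast h2
  funext x
  have h4 := (Finset.sum_eq_zero_iff_of_nonneg fun x _ => Complex.normSq_nonneg (D x)).1 h3 x
    (Finset.mem_univ x)
  exact Complex.normSq_eq_zero.1 h4

/-! ### Frobenius reciprocity -/

theorem sum_subgroup (H : Subgroup G') (f : H → ℂ) (F : G' → ℂ) :
    ∑ z : G', (if h : z ∈ H then f ⟨z, h⟩ else 0) * F z = ∑ h : H, f h * F h := by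
  have e : ∀ z : G', (if h : z ∈ H then f ⟨z, h⟩ else 0) * F z =
      if z ∈ H then (if h : z ∈ H then f ⟨z, h⟩ else 0) * F z else 0 := by
    intro z
    by_cases hz : z ∈ H
    · rw [if_pos hz]
    · rw [if_neg hz, dif_neg hz, zero_mul]
  rw [Finset.sum_congr rfl fun z _ => e z, ← Finset.sum_filter,
    Finset.sum_subtype (Finset.univ.filter (· ∈ H)) (p := (· ∈ H)) (by simp)]
  refine Finset.sum_congr rfl fun h _ => ?_
  rw [dif_pos h.2]

theorem ind_sum (H : Subgroup G') (f : H → ℂ) (F : G' → ℂ)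
    (hF : ∀ x y : G', F (y⁻¹ * x * y) = F x) :
    ∑ x : G', ind H f x * F x =
      ((Nat.card G' : ℂ) / (Nat.card H : ℂ)) * ∑ h : H, f h * F h := by
  unfold ind
  have e1 : ∀ x : G', (∑ y : G', if h : y⁻¹ * x * y ∈ H then f ⟨y⁻¹ * x * y, h⟩ else 0) /
      (Nat.card H : ℂ) * F x = (∑ y : G', (fun z => (if h : z ∈ H then f ⟨z, h⟩ else 0) * F z)
        (y⁻¹ * x * y)) / (Nat.card H : ℂ) := by
    intro x
    rw [div_mul_eq_mul_div, Finset.sum_mul]
    congr 1
    refine Finset.sum_congr rfl fun y _ => ?_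
    show _ = (if h : y⁻¹ * x * y ∈ H then f ⟨y⁻¹ * x * y, h⟩ else 0) * F (y⁻¹ * x * y)
    rw [hF]
  have e2 : ∀ y : G', ∑ x : G', (fun z => (if h : z ∈ H then f ⟨z, h⟩ else 0) * F z)
      (y⁻¹ * x * y) = ∑ h : H, f h * F h := by
    intro y
    rw [← sum_subgroup H f F]
    have := Equiv.sum_comp ((MulAut.conj y⁻¹).toEquiv)
      (fun z => (if h : z ∈ H then f ⟨z, h⟩ else 0) * F z)
    rw [← this]
    refine Finset.sum_congr rfl fun x _ => ?_
    have e3 : (MulAut.conj y⁻¹).toEquiv x = y⁻¹ * x * y := by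
      show y⁻¹ * x * y⁻¹⁻¹ = _
      rw [inv_inv]
    rw [e3]
  rw [Finset.sum_congr rfl fun x _ => e1 x, ← Finset.sum_div, Finset.sum_comm,
    Finset.sum_congr rfl fun y _ => e2 y, Finset.sum_const, Finset.card_univ, nsmul_eq_mul,
    ← Nat.card_eq_fintype_card]
  ring

theorem card_dvd {π : G' →* G} (hπ : Function.Surjective π) : Nat.card G ∣ Nat.card G' :=
  Subgroup.card_dvd_of_surjective π hπ

/-- Characters of a subgroup with neutral image. -/
theorem neutral_sum {π : G' →* G} (hπ : Function.Surjective π) {χ : G → ℂ} {H : Subgroup G'}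
    {V : Type} [AddCommGroup V] [Module ℂ V] [Module.Finite ℂ V] (θ : Representation ℂ H V)
    (hN : Neutral χ (H.map π) (Module.finrank ℂ V)) {u : ℕ} (hu : u.Coprime (Nat.card G')) :
    ∑ h : H, θ.character h * star (χ (π h ^ u)) = ∑ h : H, θ.character h * star (χ (π h)) := by
  have hs : Function.Surjective (π.subgroupMap H) := π.subgroupMap_surjective H
  obtain ⟨θ₀, hθ₀⟩ := exists_quot (π.subgroupMap H) hs θ
  have key : ∀ F : G → ℂ, ∑ h : H, θ.character h * F (π h) =
      (Nat.card (π.subgroupMap H).ker : ℂ) * ∑ h : H.map π, θ₀.character h * F h :=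
    fun F => hθ₀ fun h => F h
  rw [key (fun g => star (χ (g ^ u))), key (fun g => star (χ g))]
  rw [hN _ θ₀ (Submodule.finrank_le _) u (hu.coprime_dvd_right (card_dvd hπ))]

theorem neutral_flat {π : G' →* G} (hπ : Function.Surjective π) {χ : G → ℂ}
    (hχ : ∀ x y : G, χ (y⁻¹ * x * y) = χ x) {H : Subgroup G'}
    {V : Type} [AddCommGroup V] [Module ℂ V] [Module.Finite ℂ V] (θ : Representation ℂ H V)
    (hN : Neutral χ (H.map π) (Module.finrank ℂ V)) :
    ∃ β, Flat π χ β (ind H θ.character) := by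
  refine ⟨((Nat.card G' : ℂ) / (Nat.card H : ℂ)) *
    ∑ h : H, θ.character h * star (χ (π h)), fun u hu => ?_⟩
  have hF : ∀ x y : G', star (χ (π (y⁻¹ * x * y) ^ u)) = star (χ (π x ^ u)) := by
    intro x y
    have e : π (y⁻¹ * x * y) ^ u = (π y)⁻¹ * (π x ^ u) * π y := by
      rw [map_mul, map_mul, map_inv]
      have := conj_pow (i := u) (a := (π y)⁻¹) (b := π x)
      rwa [inv_inv] at this
    rw [e, hχ]
  rw [ind_sum H _ (fun x => star (χ (π x ^ u))) hF, neutral_sum hπ θ hN hu]

theorem inducedNeutral_flat {π : G' →* G} (hπ : Function.Surjective π) {χ : G → ℂ}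
    (hχ : ∀ x y : G, χ (y⁻¹ * x * y) = χ x) {b : G' → ℂ} (hb : b ∈ inducedNeutral π χ) :
    ∃ β, Flat π χ β b := by
  unfold inducedNeutral at hb
  induction hb using AddSubgroup.closure_induction with
  | mem x hx =>
    obtain ⟨H, V, _, _, _, θ, hN, rfl⟩ := hx
    exact neutral_flat hπ hχ θ hN
  | zero => exact ⟨0, flat_zero⟩
  | add x y _ _ hx hy =>
    obtain ⟨β, hβ⟩ := hx
    obtain ⟨γ, hγ⟩ := hy
    exact ⟨β + γ, flat_add hβ hγ⟩
  | neg x _ hx =>
    obtain ⟨β, hβ⟩ := hx
    exact ⟨-β, flat_neg hβ⟩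

end

end StarkRange
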