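import Pool.Agent.Lib_helper3.SR.Flat
import Pool.Agent.StarkU.UMACK
import Pool.Agent.StarkU.CMAIN

/-!
# The exact range of the formal reductions
-/

open scoped Classical
open StarkC

namespace StarkRange

section

variable {G : Type} [Group G] [Fintype G]

theorem ind_eq (H : Subgroup G) (ψ : H →* ℂˣ) :
    (ind H fun h => (ψ h : ℂ)) = indFun H (extZ ψ) := by
  funext g
  unfold ind indFun
  congr 1
  refine Finset.sum_congr rfl fun x _ => ?_
  by_cases h : x⁻¹ * g * x ∈ H
  · rw [dif_pos h, if_pos h]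
    exact (CMB.extZ_apply ψ (⟨_, h⟩ : H)).symm
  · rw [dif_neg h, if_neg h]

theorem ind_eq' (H : Subgroup G) (f : H → ℂ) :
    ind H f = indFun H (fun g => if h : g ∈ H then f ⟨g, h⟩ else 0) := by
  funext g
  unfold ind indFun
  congr 1
  refine Finset.sum_congr rfl fun x _ => ?_
  by_cases h : x⁻¹ * g * x ∈ H
  · rw [dif_pos h, if_pos h]
    show f ⟨x⁻¹ * g * x, h⟩ = if h : x⁻¹ * g * x ∈ H then f ⟨x⁻¹ * g * x, h⟩ else 0
    rw [dif_pos h]
  · rw [dif_neg h, if_neg h]

theorem inducedValues_EE {Z : Set ℕ} (h0 : 0 ∉ Z) {a : G → ℂ} (ha : a ∈ inducedValues G Z) :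
    EE (XX Z (Nat.card G)) a = 0 := by
  unfold inducedValues at ha
  induction ha using AddSubgroup.closure_induction with
  | mem x hx =>
    obtain ⟨H, V, _, _, _, θ, hv, rfl⟩ := hx
    refine EE_values h0 ?_ fun x => ?_
    · rw [ind_eq']
      refine StarkProj.span_mono' (fun _ _ _ => trivial) (UIND_thm G H _ (fun _ _ => True) ?_)
      have e : (fun c : H => (if h : (c : G) ∈ H then θ.character ⟨(c : G), h⟩ else 0)) =
          θ.character := by
        funext c
        rw [dif_pos c.2]
      rw [e]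
      exact CMAIN.character_mem V θ
    · unfold ind
      refine div_mem (Submodule.sum_mem _ fun y _ => ?_) _
      split_ifs with h
      · exact hv _
      · exact Submodule.zero_mem _
  | zero => exact map_zero _
  | add x y _ _ hx hy => rw [map_add, hx, hy, add_zero]
  | neg x _ hx => rw [map_neg, hx, neg_zero]

/-- From values to inductions. -/
theorem orders_of_values {Z : Set ℕ} (h0 : 0 ∉ Z) {V : Type} [AddCommGroup V] [Module ℂ V]
    [Module.Finite ℂ V] (ρ : Representation ℂ G V) (hv : ∀ g, ρ.character g ∈ rootSpan Z) :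
    ∃ m : ℤ, m ≠ 0 ∧ (fun g => (m : ℂ) * ρ.character g) ∈ inducedOrders G Z := by
  have hf : ρ.character ∈ AllQ G := CMAIN.character_mem V ρ
  have h1 := mem_of_EE_zero hf (EE_values h0 hf hv)
  obtain ⟨M, hM, hGS⟩ := CMAIN.clear h1
  obtain ⟨k, H, ψ, n, hP, hsum⟩ := CMB.of_mem_GS hGS
  refine ⟨M, by exact_mod_cast hM.ne', ?_⟩
  have e : (fun g => ((M : ℤ) : ℂ) * ρ.character g) =
      ∑ i, n i • (ind (H i) fun h => (ψ i h : ℂ)) := by
    funext g
    rw [Finset.sum_apply]
    have := hsum g
    push_cast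
    rw [this]
    refine Finset.sum_congr rfl fun i _ => ?_
    rw [Pi.smul_apply, zsmul_eq_mul, ind_eq]
  rw [e]
  refine AddSubgroup.sum_mem _ fun i _ => AddSubgroup.zsmul_mem _ ?_ _
  unfold inducedOrders
  exact AddSubgroup.subset_closure ⟨H i, ψ i, hP i, rfl⟩

theorem orders_le_values (Z : Set ℕ) : inducedOrders G Z ≤ inducedValues G Z := by
  unfold inducedOrders
  rw [AddSubgroup.closure_le]
  rintro _ ⟨H, ψ, ⟨n, hn, hψ⟩, rfl⟩
  refine AddSubgroup.subset_closure ⟨H, ℂ, inferInstance, inferInstance, inferInstance,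
    linRep ψ, fun h => ?_, ?_⟩
  · rw [MAIN.linRep_character]
    refine mem_rootSpan hn ?_
    rw [← Units.val_pow_eq_pow_val, ← MonoidHom.pow_apply, hψ]
    rfl
  · congr 1
    funext h
    exact (MAIN.linRep_character ψ h).symm

end

/-- The main point. -/
theorem values_of_sum {G G' : Type} [Group G] [Fintype G] [Group G'] [Fintype G']
    {π : G' →* G} (hπ : Function.Surjective π) {Z : Set ℕ} (h0 : 0 ∉ Z) (h1 : Z.Nonempty)
    {V : Type} [AddCommGroup V] [Module ℂ V] [Module.Finite ℂ V] (ρ : Representation ℂ G V)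
    {m : ℤ} (hm : m ≠ 0) {a b c : G' → ℂ} (ha : a ∈ inducedValues G' Z)
    (hb : b ∈ inducedNeutral π ρ.character) (hc : OrthogonalConj π ρ.character c)
    (h : (fun x => (m : ℂ) * ρ.character (π x)) = a + b + c) (g : G) :
    ρ.character g ∈ rootSpan Z := by
  set X := XX Z (Nat.card G') with hX
  have hX0 : X ≠ [] := by
    obtain ⟨n, hn⟩ := h1
    have : 1 ∈ X := (mem_XX Nat.card_pos).2 ⟨one_dvd _, n, hn, one_dvd _⟩
    exact List.ne_nil_of_mem this
  set f : G' → ℂ := fun x => ρ.character (π x) with hf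
  have hfQ : f ∈ AllQ G' := CMAIN.character_mem V (ρ.comp π : Representation ℂ G' V)
  have hcl : ∀ x y : G, ρ.character (y⁻¹ * x * y) = ρ.character x := by
    intro x y
    have := ρ.char_conj x y⁻¹
    rwa [inv_inv] at this
  -- the equation after elimination
  have e1 : (m : ℚ) • EE X f = EE X b + EE X c := by
    rw [← map_smul]
    have e : (m : ℚ) • f = a + b + c := by
      rw [← h]
      funext x
      rw [Pi.smul_apply, Rat.smul_def]
      push_cast
      rfl
    rw [e, map_add, map_add, inducedValues_EE h0 ha, zero_add]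
  obtain ⟨β, hβ⟩ := inducedNeutral_flat hπ hcl hb
  have e2 : Flat π ρ.character 0 ((m : ℚ) • EE X f) := by
    rw [e1]
    have := flat_add (EE_flat hX0 hβ) (EE_flat hX0 hc)
    rwa [add_zero] at this
  have e3 : Flat π ρ.character 0 (EE X f) := by
    intro u hu
    have h2 := e2 u hu
    have h3 : ∀ x : G', ((m : ℚ) • EE X f) x * star (ρ.character (π x ^ u)) =
        (m : ℂ) * (EE X f x * star (ρ.character (π x ^ u))) := by
      intro x
      rw [Pi.smul_apply, Rat.smul_def]
      push_cast
      ring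
    rw [Finset.sum_congr rfl fun x _ => h3 x, ← Finset.mul_sum] at h2
    rcases mul_eq_zero.1 h2 with h4 | h4
    · exact absurd (by exact_mod_cast h4) hm
    · exact h4
  have e4 : EE X f = 0 := eq_zero_of_flat (EE_conjSpan X (self_conjSpan f)) e3
  obtain ⟨x, rfl⟩ := hπ g
  exact values_of_span (mem_of_EE_zero hfQ e4) x

end StarkRange
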