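import Pool.Agent.StarkU.UNTH
import Pool.Agent.Lib_helper3.SM.Proj
import Pool.Agent.Lib_helper3.SR.Defs

/-!
# Averaging operators on class functions
-/

open scoped Classical
open Polynomial StarkC

namespace StarkRange

/-- Index set of the averaging operator. -/
noncomputable def JJ (n M : ℕ) : Finset ℕ :=
  (Finset.range M).filter (fun j => (1 + n * j).Coprime M)

theorem zero_mem_JJ {n M : ℕ} (hM : 0 < M) : 0 ∈ JJ n M := by
  unfold JJ
  rw [Finset.mem_filter, Finset.mem_range, mul_zero, add_zero]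
  exact ⟨hM, Nat.coprime_one_left _⟩

theorem JJ_coprime {n M j : ℕ} (hj : j ∈ JJ n M) : (1 + n * j).Coprime M :=
  (Finset.mem_filter.1 hj).2

theorem JJ_card {n M : ℕ} (hM : 0 < M) : ((JJ n M).card : ℂ) ≠ 0 := by
  exact_mod_cast (Finset.card_pos.2 ⟨0, zero_mem_JJ hM⟩).ne'

section values

theorem rootSpan_mono {Z Z' : Set ℕ} (h : Z ⊆ Z') : rootSpan Z ≤ rootSpan Z' := by
  refine Submodule.span_mono ?_
  rintro z ⟨n, hn, hz⟩
  exact ⟨n, h hn, hz⟩

theorem mem_rootSpan {Z : Set ℕ} {z : ℂ} {n : ℕ} (hn : n ∈ Z) (hz : z ^ n = 1) :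
    z ∈ rootSpan Z :=
  Submodule.subset_span ⟨n, hn, hz⟩

/-- dividing by a natural number -/
theorem div_mem {Z : Set ℕ} {w : ℂ} (hw : w ∈ rootSpan Z) (k : ℕ) :
    w / (k : ℂ) ∈ rootSpan Z := by
  have h : w / (k : ℂ) = ((k : ℚ)⁻¹ : ℚ) • w := by
    rw [Rat.smul_def, Rat.cast_inv, Rat.cast_natCast, div_eq_inv_mul]
  rw [h]
  exact Submodule.smul_mem _ _ hw

/-- one step of the elimination -/
theorem value_step {M n : ℕ} (hM : 0 < M) {ζ : ℂ} (hζ : IsPrimitiveRoot ζ M) {l : List ℕ}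
    (hl : ∀ k ∈ n :: l, k ∣ M) {w : ℂ} (hw : w ∈ rootSpan {k | k ∈ n :: l}) :
    ∃ Q : ℚ[X], aeval ζ Q = w ∧
      w - (∑ j ∈ JJ n M, aeval (ζ ^ (1 + n * j)) Q) / ((JJ n M).card : ℂ) ∈
        rootSpan {k | k ∈ l} := by
  have hc := JJ_card (n := n) hM
  unfold rootSpan at hw
  induction hw using Submodule.span_induction with
  | mem z hz =>
    obtain ⟨k, hk, hz⟩ := hz
    have : NeZero M := ⟨hM.ne'⟩
    have hzM : z ^ M = 1 := by
      obtain ⟨c, hc⟩ := hl k hk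
      rw [hc, pow_mul, hz, one_pow]
    obtain ⟨i, -, hi⟩ := hζ.eq_pow_of_pow_eq_one hzM
    refine ⟨X ^ i, by rw [map_pow, aeval_X, hi], ?_⟩
    have e : ∀ j ∈ JJ n M, aeval (ζ ^ (1 + n * j)) (X ^ i : ℚ[X]) = z ^ (1 + n * j) := by
      intro j _
      rw [map_pow, aeval_X, ← hi, ← pow_mul, ← pow_mul, mul_comm]
    rw [Finset.sum_congr rfl e]
    rcases List.mem_cons.1 hk with rfl | hkl
    · have e2 : ∀ j ∈ JJ k M, z ^ (1 + k * j) = z := by
        intro j _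
        rw [pow_add, pow_one, pow_mul, hz, one_pow, mul_one]
      rw [Finset.sum_congr rfl e2, Finset.sum_const, nsmul_eq_mul, mul_div_assoc,
        mul_div_cancel₀ _ hc, sub_self]
      exact Submodule.zero_mem _
    · refine Submodule.sub_mem _ (mem_rootSpan hkl hz) (div_mem ?_ _)
      refine Submodule.sum_mem _ fun j _ => mem_rootSpan hkl ?_
      rw [← pow_mul, mul_comm, pow_mul, hz, one_pow]
  | zero => exact ⟨0, map_zero _, by simp⟩
  | add x y _ _ hx hy =>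
    obtain ⟨P, hP, hP'⟩ := hx
    obtain ⟨Q, hQ, hQ'⟩ := hy
    refine ⟨P + Q, by rw [map_add, hP, hQ], ?_⟩
    have e : x + y - (∑ j ∈ JJ n M, aeval (ζ ^ (1 + n * j)) (P + Q)) / ((JJ n M).card : ℂ) =
        (x - (∑ j ∈ JJ n M, aeval (ζ ^ (1 + n * j)) P) / ((JJ n M).card : ℂ)) +
        (y - (∑ j ∈ JJ n M, aeval (ζ ^ (1 + n * j)) Q) / ((JJ n M).card : ℂ)) := by
      simp only [map_add, Finset.sum_add_distrib]
      ring
    rw [e]
    exact Submodule.add_mem _ hP' hQ'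
  | smul q x _ hx =>
    obtain ⟨P, hP, hP'⟩ := hx
    refine ⟨q • P, by rw [map_smul, hP], ?_⟩
    have e : q • x - (∑ j ∈ JJ n M, aeval (ζ ^ (1 + n * j)) (q • P)) / ((JJ n M).card : ℂ) =
        q • (x - (∑ j ∈ JJ n M, aeval (ζ ^ (1 + n * j)) P) / ((JJ n M).card : ℂ)) := by
      simp only [map_smul, Rat.smul_def, ← Finset.mul_sum]
      ring
    rw [e]
    exact Submodule.smul_mem _ _ hP'

/-- The divisors of `M` which divide an element of `Z`. -/
noncomputable def XX (Z : Set ℕ) (M : ℕ) : List ℕ :=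
  (M.divisors.filter fun k => ∃ n ∈ Z, k ∣ n).toList

theorem mem_XX {Z : Set ℕ} {M k : ℕ} (hM : 0 < M) :
    k ∈ XX Z M ↔ k ∣ M ∧ ∃ n ∈ Z, k ∣ n := by
  unfold XX
  rw [Finset.mem_toList, Finset.mem_filter, Nat.mem_divisors]
  constructor
  · rintro ⟨⟨h1, -⟩, h2⟩
    exact ⟨h1, h2⟩
  · rintro ⟨h1, h2⟩
    exact ⟨⟨h1, hM.ne'⟩, h2⟩

/-- descent to the `M`-th roots of unity -/
theorem descend {Z : Set ℕ} (h0 : 0 ∉ Z) {M : ℕ} (hM : 0 < M) {w : ℂ} (hw : w ∈ rootSpan Z) :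
    ∃ m₀ : ℕ, 0 < m₀ ∧ ∀ M' : ℕ, 0 < M' → m₀ ∣ M' → ∀ ζ : ℂ, IsPrimitiveRoot ζ M' →
      ∃ Q : ℚ[X], aeval ζ Q = w ∧
        ∑ j ∈ JJ M M', aeval (ζ ^ (1 + M * j)) Q ∈ rootSpan {k | k ∈ XX Z M} := by
  unfold rootSpan at hw
  induction hw using Submodule.span_induction with
  | mem z hz =>
    obtain ⟨n, hn, hz⟩ := hz
    have hn0 : 0 < n := Nat.pos_of_ne_zero fun h => h0 (h ▸ hn)
    refine ⟨n, hn0, fun M' hM' hnM ζ hζ => ?_⟩
    have : NeZero M' := ⟨hM'.ne'⟩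
    have hzM : z ^ M' = 1 := by
      obtain ⟨c, hc⟩ := hnM
      rw [hc, pow_mul, hz, one_pow]
    obtain ⟨i, -, hi⟩ := hζ.eq_pow_of_pow_eq_one hzM
    refine ⟨X ^ i, by rw [map_pow, aeval_X, hi], ?_⟩
    have e : ∀ j ∈ JJ M M', aeval (ζ ^ (1 + M * j)) (X ^ i : ℚ[X]) = z ^ (1 + M * j) := by
      intro j _
      rw [map_pow, aeval_X, ← hi, ← pow_mul, ← pow_mul, mul_comm]
    rw [Finset.sum_congr rfl e]
    unfold JJ
    rw [UAVG.avg M M' hM' z hzM]
    refine Submodule.sum_mem _ fun d hd => ?_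
    rw [Finset.mem_filter, Nat.mem_divisors] at hd
    have hd0 : 0 < d := Nat.pos_of_dvd_of_pos hd.1.1 hM'
    have e2 : ∀ y : ℂ, ((ArithmeticFunction.moebius d : ℤ) : ℂ) * ((M' / d : ℕ) : ℂ) * y =
        (((ArithmeticFunction.moebius d : ℤ) : ℚ) * ((M' / d : ℕ) : ℚ)) • y := by
      intro y
      rw [Rat.smul_def]
      push_cast
      ring
    rw [e2]
    refine Submodule.smul_mem _ _ ?_
    split_ifs with h
    · obtain ⟨k, hk⟩ := UAVG.dvd_tn M d hd0 hd.2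
      have h1 : (z ^ UAVG.tn M d) ^ M = 1 := by
        rw [← pow_mul, hk, show d * k * M = M * d * k by ring, pow_mul, h, one_pow]
      have h2 : (z ^ UAVG.tn M d) ^ n = 1 := by
        rw [← pow_mul, mul_comm, pow_mul, hz, one_pow]
      refine mem_rootSpan (n := Nat.gcd M n) ?_ (pow_gcd_eq_one.2 ⟨h1, h2⟩)
      exact (mem_XX hM).2 ⟨Nat.gcd_dvd_left _ _, n, hn, Nat.gcd_dvd_right _ _⟩
    · exact Submodule.zero_mem _
  | zero => exact ⟨1, one_pos, fun M' _ _ ζ _ => ⟨0, map_zero _, by simp⟩⟩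
  | add x y _ _ hx hy =>
    obtain ⟨m, hm, hx⟩ := hx
    obtain ⟨k, hk, hy⟩ := hy
    refine ⟨m * k, Nat.mul_pos hm hk, fun M' hM' hd ζ hζ => ?_⟩
    obtain ⟨P, hP, hP'⟩ := hx M' hM' ((dvd_mul_right _ _).trans hd) ζ hζ
    obtain ⟨Q, hQ, hQ'⟩ := hy M' hM' ((dvd_mul_left _ _).trans hd) ζ hζ
    refine ⟨P + Q, by rw [map_add, hP, hQ], ?_⟩
    simp only [map_add, Finset.sum_add_distrib]
    exact Submodule.add_mem _ hP' hQ'
  | smul q x _ hx =>
    obtain ⟨m, hm, hx⟩ := hx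
    refine ⟨m, hm, fun M' hM' hd ζ hζ => ?_⟩
    obtain ⟨P, hP, hP'⟩ := hx M' hM' hd ζ hζ
    refine ⟨q • P, by rw [map_smul, hP], ?_⟩
    have e : ∑ j ∈ JJ M M', aeval (ζ ^ (1 + M * j)) (q • P) =
        q • ∑ j ∈ JJ M M', aeval (ζ ^ (1 + M * j)) P := by
      simp only [map_smul, Finset.smul_sum]
    rw [e]
    exact Submodule.smul_mem _ _ hP'

end values

section ops

variable {G : Type} [Group G] [Fintype G]

/-- The averaging operator. -/
noncomputable def av (n : ℕ) : (G → ℂ) →ₗ[ℚ] (G → ℂ) :=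
  ((JJ n (Nat.card G)).card : ℚ)⁻¹ • UAVG.A n (Nat.card G)

theorem av_apply (n : ℕ) (f : G → ℂ) (x : G) : av n f x =
    (∑ j ∈ JJ n (Nat.card G), f (x ^ (1 + n * j))) / ((JJ n (Nat.card G)).card : ℂ) := by
  unfold av
  rw [LinearMap.smul_apply, Pi.smul_apply, UAVG.A_apply, Rat.smul_def, Rat.cast_inv,
    Rat.cast_natCast, div_eq_inv_mul]
  rfl

/-- The elimination operator. -/
noncomputable def EE : List ℕ → (G → ℂ) →ₗ[ℚ] (G → ℂ)
  | [] => LinearMap.id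
  | n :: l => (EE l).comp (LinearMap.id - av n)

theorem EE_cons (n : ℕ) (l : List ℕ) (f : G → ℂ) :
    EE (n :: l) f = EE l (f - av n f) := rfl

/-- Combinations of inductions of all linear characters. -/
noncomputable abbrev AllQ (G : Type) [Group G] [Fintype G] : Submodule ℚ (G → ℂ) :=
  SpanQ (G := G) (fun _ _ => True)

theorem av_mem (n : ℕ) {f : G → ℂ} (hf : f ∈ AllQ G) :
    av n f ∈ SpanQ (G := G) (fun _ ψ => ψ ^ n = 1) := by
  unfold av
  rw [LinearMap.smul_apply]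
  refine Submodule.smul_mem _ _ ?_
  refine StarkProj.span_mono' ?_ (UAVG.A_mem n hf)
  rintro B ν ⟨_, _, _, _, _, _, _, h, _⟩
  exact h

theorem av_all (n : ℕ) {f : G → ℂ} (hf : f ∈ AllQ G) : av n f ∈ AllQ G :=
  StarkProj.span_mono' (fun _ _ _ => trivial) (av_mem n hf)

theorem EE_diff (l : List ℕ) : ∀ {f : G → ℂ}, f ∈ AllQ G →
    f - EE l f ∈ SpanQ (G := G) (fun _ ψ => ∃ n ∈ l, ψ ^ n = 1) := by
  induction l with
  | nil =>
    intro f _
    rw [show f - EE [] f = 0 from sub_self f]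
    exact Submodule.zero_mem _
  | cons n l ih =>
    intro f hf
    rw [EE_cons]
    have e : f - EE l (f - av n f) = av n f + ((f - av n f) - EE l (f - av n f)) := by abel
    rw [e]
    refine Submodule.add_mem _ (StarkProj.span_mono' ?_ (av_mem n hf))
      (StarkProj.span_mono' ?_ (ih (Submodule.sub_mem _ hf (av_all n hf))))
    · intro H ψ h
      exact ⟨n, List.mem_cons_self, h⟩
    · rintro H ψ ⟨k, hk, h⟩
      exact ⟨k, List.mem_cons_of_mem _ hk, h⟩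

theorem EE_zero (l : List ℕ) : (∀ k ∈ l, k ∣ Nat.card G) → ∀ {f : G → ℂ}, f ∈ AllQ G →
    (∀ x, f x ∈ rootSpan {k | k ∈ l}) → EE l f = 0 := by
  induction l with
  | nil =>
    intro _ f _ hv
    funext x
    have h := hv x
    unfold rootSpan at h
    have e : {z : ℂ | ∃ n ∈ {k : ℕ | k ∈ ([] : List ℕ)}, z ^ n = 1} = ∅ := by
      ext z
      simp
    rw [e, Submodule.span_empty, Submodule.mem_bot] at h
    exact h
  | cons n l ih =>
    intro hl f hf hv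
    have hM : 0 < Nat.card G := Nat.card_pos
    rw [EE_cons]
    refine ih (fun k hk => hl k (List.mem_cons_of_mem _ hk))
      (Submodule.sub_mem _ hf (av_all n hf)) fun x => ?_
    set ζ : ℂ := Complex.exp (2 * Real.pi * Complex.I / (Nat.card G : ℕ)) with hζd
    have hζ : IsPrimitiveRoot ζ (Nat.card G) := Complex.isPrimitiveRoot_exp _ hM.ne'
    obtain ⟨P, hP⟩ := StarkProj.galF_span hM (by rw [Nat.card_eq_fintype_card]) hζ hf x
    obtain ⟨Q, hQ, hQ'⟩ := value_step hM hζ hl (hv x)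
    have h1 : aeval ζ P = aeval ζ Q := by
      have := hP 1 (Nat.coprime_one_left _)
      rw [pow_one, pow_one] at this
      rw [← this, hQ]
    rw [Pi.sub_apply, av_apply]
    have h2 : ∀ j ∈ JJ n (Nat.card G), f (x ^ (1 + n * j)) = aeval (ζ ^ (1 + n * j)) Q := by
      intro j hj
      rw [hP _ (JJ_coprime hj)]
      exact StarkProj.aeval_conj hM hζ h1 (JJ_coprime hj)
    rw [Finset.sum_congr rfl h2]
    exact hQ'

theorem values_descend {Z : Set ℕ} (h0 : 0 ∉ Z) {f : G → ℂ} (hf : f ∈ AllQ G)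
    (hv : ∀ x, f x ∈ rootSpan Z) (x : G) :
    f x ∈ rootSpan {k | k ∈ XX Z (Nat.card G)} := by
  have hM : 0 < Nat.card G := Nat.card_pos
  obtain ⟨m₀, hm₀, h⟩ := descend h0 hM (hv x)
  have hM' : 0 < Nat.card G * m₀ := Nat.mul_pos hM hm₀
  set M' := Nat.card G * m₀ with hM'd
  set ζ : ℂ := Complex.exp (2 * Real.pi * Complex.I / (M' : ℕ)) with hζd
  have hζ : IsPrimitiveRoot ζ M' := Complex.isPrimitiveRoot_exp _ hM'.ne'
  obtain ⟨Q, hQ, hQ'⟩ := h M' hM' (dvd_mul_left _ _) ζ hζ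
  obtain ⟨P, hP⟩ := StarkProj.galF_span hM' (by
    rw [← Nat.card_eq_fintype_card, hM'd]
    exact dvd_mul_right _ _) hζ hf x
  have h1 : aeval ζ P = aeval ζ Q := by
    have := hP 1 (Nat.coprime_one_left _)
    rw [pow_one, pow_one] at this
    rw [← this, hQ]
  have h2 : ∀ j ∈ JJ (Nat.card G) M', aeval (ζ ^ (1 + Nat.card G * j)) Q = f x := by
    intro j hj
    rw [← StarkProj.aeval_conj hM' hζ h1 (JJ_coprime hj), ← hP _ (JJ_coprime hj), pow_add,
      pow_one, pow_mul, pow_card_eq_one', one_pow, mul_one]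
  rw [Finset.sum_congr rfl h2, Finset.sum_const, nsmul_eq_mul] at hQ'
  have h3 := div_mem hQ' (JJ (Nat.card G) M').card
  rwa [mul_comm, mul_div_assoc, div_self (JJ_card hM'), mul_one] at h3

/-- Class functions with values in `rootSpan Z` are killed by the elimination operator. -/
theorem EE_values {Z : Set ℕ} (h0 : 0 ∉ Z) {f : G → ℂ} (hf : f ∈ AllQ G)
    (hv : ∀ x, f x ∈ rootSpan Z) : EE (XX Z (Nat.card G)) f = 0 :=
  EE_zero _ (fun _ hk => ((mem_XX Nat.card_pos).1 hk).1) hf (values_descend h0 hf hv)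

/-- Combinations of inductions of characters `ψ`, `ψ ^ n = 1`, `n ∈ Z`. -/
theorem mem_of_EE_zero {Z : Set ℕ} {f : G → ℂ} (hf : f ∈ AllQ G)
    (h : EE (XX Z (Nat.card G)) f = 0) :
    f ∈ SpanQ (G := G) (fun _ ψ => ∃ n ∈ Z, ψ ^ n = 1) := by
  have h1 := EE_diff (XX Z (Nat.card G)) hf
  rw [h, sub_zero] at h1
  refine StarkProj.span_mono' ?_ h1
  rintro H ψ ⟨k, hk, h⟩
  obtain ⟨-, n, hn, c, rfl⟩ := (mem_XX Nat.card_pos).1 hk
  refine ⟨_, hn, MonoidHom.ext fun x => ?_⟩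
  have h2 := DFunLike.congr_fun h x
  rw [MonoidHom.pow_apply, MonoidHom.one_apply] at h2
  rw [MonoidHom.pow_apply, pow_mul, h2, one_pow, MonoidHom.one_apply]

theorem values_of_span {Z : Set ℕ} {f : G → ℂ}
    (hf : f ∈ SpanQ (G := G) (fun _ ψ => ∃ n ∈ Z, ψ ^ n = 1)) (x : G) : f x ∈ rootSpan Z := by
  unfold SpanQ at hf
  induction hf using Submodule.span_induction with
  | mem f hf =>
    obtain ⟨H, ψ, ⟨n, hn, hψ⟩, rfl⟩ := hf
    unfold indFun
    refine div_mem (Submodule.sum_mem _ fun y _ => ?_) _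
    split_ifs with hy
    · have e := CMB.extZ_apply ψ (⟨_, hy⟩ : H)
      have e' : extZ ψ (y⁻¹ * x * y) = ((ψ ⟨_, hy⟩ : ℂˣ) : ℂ) := e
      rw [e']
      refine mem_rootSpan hn ?_
      rw [← Units.val_pow_eq_pow_val, ← MonoidHom.pow_apply, hψ]
      rfl
    · exact Submodule.zero_mem _
  | zero => exact Submodule.zero_mem _
  | add f g _ _ hf hg => exact Submodule.add_mem _ hf hg
  | smul q f _ hf => exact Submodule.smul_mem _ _ hf

end ops

end StarkRange
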